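import Mathlib

/-!
# A C*-algebra with an approximate identity of projections but no increasing one

Let `X` be a set with at least `ℵ₂` elements and `M` a C*-algebra with projections `p n`, `q n`
tending to a projection `l`, such that `p n` and `q n` are not below a common proper projection.
We consider bounded functions on `X × X × ℕ` with values in `M`. For a finite set `F` let `B F` be
the algebra of all `f` such that `f (u, v, n)` is `0` if `u, v ∉ F`, `c u • p n` if `u ∈ F`,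
`v ∉ F`, `c v • q n` if `u ∉ F`, `v ∈ F`, and `(1 - l) * f (u, v, n)` and
`f (u, v, n) * (1 - l)` tend to zero as `n → ∞` if `u, v ∈ F`. The algebra is the closure of the
union of all `B F`.
-/

set_option autoImplicit false
open Filter Topology
open scoped ENNReal

namespace Pool.Agent.R295.IncrAU

/-- the data: projections `p n`, `q n` tending to `l` in a C*-algebra `M`. -/
structure Data (M : Type) [CStarAlgebra M] where
  p : ℕ → M
  q : ℕ → M
  l : M
  p_idem : ∀ n, p n * p n = p n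
  q_idem : ∀ n, q n * q n = q n
  l_idem : l * l = l
  p_star : ∀ n, star (p n) = p n
  q_star : ∀ n, star (q n) = q n
  l_star : star l = l
  p_lim : Tendsto p atTop (𝓝 l)
  q_lim : Tendsto q atTop (𝓝 l)
  join : ∀ n, ∃ a b : M, p n * a + q n * b = 1
  p_ne : ∀ n, p n ≠ 0
  q_ne : ∀ n, q n ≠ 0
  l_ne : l ≠ 1

variable {M : Type} [CStarAlgebra M] (D : Data M) (X : Type)

/-- the ambient algebra -/
abbrev Amb (M : Type) [CStarAlgebra M] (X : Type) : Type := lp (fun _ : X × X × ℕ => M) ∞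

variable {X}

/-- the algebra `B F` -/
def InB (F : Finset X) (f : X × X × ℕ → M) : Prop :=
  (∀ u v n, u ∉ F → v ∉ F → f (u, v, n) = 0) ∧
  (∀ u ∈ F, ∃ c : ℂ, ∀ v n, v ∉ F → f (u, v, n) = c • D.p n ∧ f (v, u, n) = c • D.q n) ∧
  (∀ u ∈ F, ∀ v ∈ F, Tendsto (fun n => (1 - D.l) * f (u, v, n)) atTop (𝓝 0) ∧
    Tendsto (fun n => f (u, v, n) * (1 - D.l)) atTop (𝓝 0))

lemma one_sub_l_mul_p : Tendsto (fun n => (1 - D.l) * D.p n) atTop (𝓝 0) := by
  have h := (tendsto_const_nhds (x := 1 - D.l)).mul D.p_lim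
  have e : (1 - D.l) * D.l = 0 := by rw [sub_mul, one_mul, D.l_idem, sub_self]
  rwa [e] at h

lemma one_sub_l_mul_q : Tendsto (fun n => (1 - D.l) * D.q n) atTop (𝓝 0) := by
  have h := (tendsto_const_nhds (x := 1 - D.l)).mul D.q_lim
  have e : (1 - D.l) * D.l = 0 := by rw [sub_mul, one_mul, D.l_idem, sub_self]
  rwa [e] at h

lemma p_mul_one_sub_l : Tendsto (fun n => D.p n * (1 - D.l)) atTop (𝓝 0) := by
  have h := D.p_lim.mul (tendsto_const_nhds (x := 1 - D.l))
  have e : D.l * (1 - D.l) = 0 := by rw [mul_sub, mul_one, D.l_idem, sub_self]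
  rwa [e] at h

lemma q_mul_one_sub_l : Tendsto (fun n => D.q n * (1 - D.l)) atTop (𝓝 0) := by
  have h := D.q_lim.mul (tendsto_const_nhds (x := 1 - D.l))
  have e : D.l * (1 - D.l) = 0 := by rw [mul_sub, mul_one, D.l_idem, sub_self]
  rwa [e] at h

variable {D}

lemma InB.mono {F G : Finset X} (hFG : F ⊆ G) {f : X × X × ℕ → M} (hf : InB D F f) :
    InB D G f := by
  obtain ⟨h1, h2, h3⟩ := hf
  refine ⟨fun u v n hu hv => h1 u v n (fun h => hu (hFG h)) (fun h => hv (hFG h)), ?_, ?_⟩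
  · intro u hu
    by_cases huF : u ∈ F
    · obtain ⟨c, hc⟩ := h2 u huF
      exact ⟨c, fun v n hv => hc v n (fun h => hv (hFG h))⟩
    · refine ⟨0, fun v n hv => ?_⟩
      have hvF : v ∉ F := fun h => hv (hFG h)
      rw [h1 u v n huF hvF, h1 v u n hvF huF, zero_smul, zero_smul]
      exact ⟨rfl, rfl⟩
  · intro u hu v hv
    by_cases huF : u ∈ F
    · by_cases hvF : v ∈ F
      · exact h3 u huF v hvF
      · obtain ⟨c, hc⟩ := h2 u huF
        have e : ∀ n, f (u, v, n) = c • D.p n := fun n => (hc v n hvF).1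
        simp only [e, mul_smul_comm, smul_mul_assoc]
        have a1 := (one_sub_l_mul_p D).const_smul c
        have a2 := (p_mul_one_sub_l D).const_smul c
        rw [smul_zero] at a1 a2
        exact ⟨a1, a2⟩
    · by_cases hvF : v ∈ F
      · obtain ⟨c, hc⟩ := h2 v hvF
        have e : ∀ n, f (u, v, n) = c • D.q n := fun n => (hc u n huF).2
        simp only [e, mul_smul_comm, smul_mul_assoc]
        have a1 := (one_sub_l_mul_q D).const_smul c
        have a2 := (q_mul_one_sub_l D).const_smul c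
        rw [smul_zero] at a1 a2
        exact ⟨a1, a2⟩
      · have e : ∀ n, f (u, v, n) = 0 := fun n => h1 u v n huF hvF
        simp only [e, mul_zero, zero_mul]
        exact ⟨tendsto_const_nhds, tendsto_const_nhds⟩

lemma InB.add {F : Finset X} {f g : X × X × ℕ → M} (hf : InB D F f) (hg : InB D F g) :
    InB D F (fun y => f y + g y) := by
  obtain ⟨h1, h2, h3⟩ := hf
  obtain ⟨k1, k2, k3⟩ := hg
  refine ⟨fun u v n hu hv => by beta_reduce; rw [h1 u v n hu hv, k1 u v n hu hv, add_zero], ?_, ?_⟩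
  · intro u hu
    obtain ⟨c, hc⟩ := h2 u hu
    obtain ⟨d, hd⟩ := k2 u hu
    refine ⟨c + d, fun v n hv => ?_⟩
    beta_reduce
    rw [(hc v n hv).1, (hc v n hv).2, (hd v n hv).1, (hd v n hv).2, add_smul, add_smul]
    exact ⟨rfl, rfl⟩
  · intro u hu v hv
    have a1 := (h3 u hu v hv).1.add (k3 u hu v hv).1
    have a2 := (h3 u hu v hv).2.add (k3 u hu v hv).2
    rw [add_zero] at a1 a2
    simp only [mul_add, add_mul]
    exact ⟨a1, a2⟩

lemma InB.smul {F : Finset X} {f : X × X × ℕ → M} (hf : InB D F f) (z : ℂ) :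
    InB D F (fun y => z • f y) := by
  obtain ⟨h1, h2, h3⟩ := hf
  refine ⟨fun u v n hu hv => by beta_reduce; rw [h1 u v n hu hv, smul_zero], ?_, ?_⟩
  · intro u hu
    obtain ⟨c, hc⟩ := h2 u hu
    refine ⟨z * c, fun v n hv => ?_⟩
    beta_reduce
    rw [(hc v n hv).1, (hc v n hv).2, mul_smul, mul_smul]
    exact ⟨rfl, rfl⟩
  · intro u hu v hv
    have a1 := (h3 u hu v hv).1.const_smul z
    have a2 := (h3 u hu v hv).2.const_smul z
    rw [smul_zero] at a1 a2
    simp only [mul_smul_comm, smul_mul_assoc]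
    exact ⟨a1, a2⟩

lemma InB.star {F : Finset X} {f : X × X × ℕ → M} (hf : InB D F f) :
    InB D F (fun y => star (f y)) := by
  obtain ⟨h1, h2, h3⟩ := hf
  refine ⟨fun u v n hu hv => by beta_reduce; rw [h1 u v n hu hv, star_zero], ?_, ?_⟩
  · intro u hu
    obtain ⟨c, hc⟩ := h2 u hu
    refine ⟨Star.star c, fun v n hv => ?_⟩
    beta_reduce
    rw [(hc v n hv).1, (hc v n hv).2, star_smul, star_smul, D.p_star, D.q_star]
    exact ⟨rfl, rfl⟩
  · intro u hu v hv
    have a1 := (h3 u hu v hv).1.star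
    have a2 := (h3 u hu v hv).2.star
    rw [star_zero] at a1 a2
    simp only [star_mul, star_sub, star_one, D.l_star] at a1 a2
    exact ⟨a2, a1⟩

lemma tendsto_zero_mul_bdd {a b : ℕ → M} {C : ℝ} (ha : Tendsto a atTop (𝓝 0))
    (hb : ∀ n, ‖b n‖ ≤ C) : Tendsto (fun n => a n * b n) atTop (𝓝 0) := by
  rw [tendsto_zero_iff_norm_tendsto_zero] at ha ⊢
  have h := ha.mul_const C
  rw [zero_mul] at h
  refine squeeze_zero (fun n => norm_nonneg _) (fun n => ?_) h
  exact (norm_mul_le _ _).trans (mul_le_mul_of_nonneg_left (hb n) (norm_nonneg _))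

lemma bdd_mul_tendsto_zero {a b : ℕ → M} {C : ℝ} (ha : Tendsto a atTop (𝓝 0))
    (hb : ∀ n, ‖b n‖ ≤ C) : Tendsto (fun n => b n * a n) atTop (𝓝 0) := by
  rw [tendsto_zero_iff_norm_tendsto_zero] at ha ⊢
  have h := ha.const_mul C
  rw [mul_zero] at h
  refine squeeze_zero (fun n => norm_nonneg _) (fun n => ?_) h
  exact (norm_mul_le _ _).trans (mul_le_mul_of_nonneg_right (hb n) (norm_nonneg _))

lemma InB.mul {F : Finset X} {f g : X × X × ℕ → M} (hf : InB D F f) (hg : InB D F g)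
    {C : ℝ} (hfC : ∀ y, ‖f y‖ ≤ C) (hgC : ∀ y, ‖g y‖ ≤ C) :
    InB D F (fun y => f y * g y) := by
  obtain ⟨h1, h2, h3⟩ := hf
  obtain ⟨k1, k2, k3⟩ := hg
  refine ⟨fun u v n hu hv => by beta_reduce; rw [h1 u v n hu hv, zero_mul], ?_, ?_⟩
  · intro u hu
    obtain ⟨c, hc⟩ := h2 u hu
    obtain ⟨d, hd⟩ := k2 u hu
    refine ⟨c * d, fun v n hv => ?_⟩
    beta_reduce
    rw [(hc v n hv).1, (hc v n hv).2, (hd v n hv).1, (hd v n hv).2, smul_mul_smul_comm,
      smul_mul_smul_comm, D.p_idem, D.q_idem]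
    exact ⟨rfl, rfl⟩
  · intro u hu v hv
    constructor
    · have := tendsto_zero_mul_bdd (h3 u hu v hv).1 (b := fun n => g (u, v, n)) (C := C)
        (fun n => hgC _)
      simpa only [mul_assoc] using this
    · have := bdd_mul_tendsto_zero (k3 u hu v hv).2 (b := fun n => f (u, v, n)) (C := C)
        (fun n => hfC _)
      simpa only [mul_assoc] using this

variable (D X)

/-- the union of the algebras `B F` -/
noncomputable def alg0 [DecidableEq X] : NonUnitalStarSubalgebra ℂ (Amb M X) where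
  carrier := {f | ∃ F : Finset X, InB D F f}
  add_mem' := by
    rintro f g ⟨F, hf⟩ ⟨G, hg⟩
    exact ⟨F ∪ G, (hf.mono Finset.subset_union_left).add (hg.mono Finset.subset_union_right)⟩
  zero_mem' := by
    refine ⟨∅, fun u v n _ _ => rfl, fun u hu => absurd hu (Finset.notMem_empty u),
      fun u hu => absurd hu (Finset.notMem_empty u)⟩
  mul_mem' := by
    rintro f g ⟨F, hf⟩ ⟨G, hg⟩
    refine ⟨F ∪ G, (hf.mono Finset.subset_union_left).mul (hg.mono Finset.subset_union_right)
      (C := max ‖f‖ ‖g‖) (fun y => ?_) (fun y => ?_)⟩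
    · exact (lp.norm_apply_le_norm ENNReal.top_ne_zero f y).trans (le_max_left _ _)
    · exact (lp.norm_apply_le_norm ENNReal.top_ne_zero g y).trans (le_max_right _ _)
  smul_mem' := by
    rintro z f ⟨F, hf⟩
    exact ⟨F, hf.smul z⟩
  star_mem' := by
    rintro f ⟨F, hf⟩
    exact ⟨F, hf.star⟩

/-- the C*-algebra of the counterexample -/
noncomputable def alg [DecidableEq X] : NonUnitalStarSubalgebra ℂ (Amb M X) :=
  (alg0 D X).topologicalClosure

variable {X}

lemma norm_le_one_of_proj {a : M} (h1 : a * a = a) (h2 : star a = a) : ‖a‖ ≤ 1 := by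
  by_contra h
  push Not at h
  have h3 : ‖a‖ * ‖a‖ = ‖a‖ := by
    rw [← CStarRing.norm_star_mul_self, h2, h1]
  nlinarith

lemma norm_eq_one_of_proj {a : M} (h1 : a * a = a) (h2 : star a = a) (h0 : a ≠ 0) : ‖a‖ = 1 := by
  have h3 : ‖a‖ * ‖a‖ = ‖a‖ := by
    rw [← CStarRing.norm_star_mul_self, h2, h1]
  have h4 : 0 < ‖a‖ := norm_pos_iff.2 h0
  nlinarith

open Classical in
/-- the values of the approximate identity -/
noncomputable def eFun (F : Finset X) (N : ℕ) (y : X × X × ℕ) : M :=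
  if y.1 ∈ F then (if y.2.1 ∈ F then (if y.2.2 < N then 1 else D.l) else D.p y.2.2)
  else (if y.2.1 ∈ F then D.q y.2.2 else 0)

lemma eFun_idem (F : Finset X) (N : ℕ) (y : X × X × ℕ) :
    eFun D F N y * eFun D F N y = eFun D F N y := by
  unfold eFun
  split_ifs
  · exact one_mul 1
  · exact D.l_idem
  · exact D.p_idem _
  · exact D.q_idem _
  · exact zero_mul 0

lemma eFun_star (F : Finset X) (N : ℕ) (y : X × X × ℕ) :
    star (eFun D F N y) = eFun D F N y := by
  unfold eFun
  split_ifs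
  · exact star_one M
  · exact D.l_star
  · exact D.p_star _
  · exact D.q_star _
  · exact star_zero M

lemma eFun_norm (F : Finset X) (N : ℕ) (y : X × X × ℕ) : ‖eFun D F N y‖ ≤ 1 :=
  norm_le_one_of_proj (eFun_idem D F N y) (eFun_star D F N y)

/-- the approximate identity -/
noncomputable def eAmb (F : Finset X) (N : ℕ) : Amb M X :=
  ⟨eFun D F N, memℓp_infty ⟨1, by rintro _ ⟨y, rfl⟩; exact eFun_norm D F N y⟩⟩

lemma eAmb_apply (F : Finset X) (N : ℕ) (y : X × X × ℕ) : eAmb D F N y = eFun D F N y := rfl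

lemma eAmb_norm (F : Finset X) (N : ℕ) : ‖eAmb D F N‖ ≤ 1 :=
  lp.norm_le_of_forall_le zero_le_one fun y => eFun_norm D F N y

lemma inB_eFun (F : Finset X) (N : ℕ) : InB D F (eFun D F N) := by
  refine ⟨fun u v n hu hv => ?_, fun u hu => ⟨1, fun v n hv => ?_⟩, fun u hu v hv => ?_⟩
  · simp [eFun, hu, hv]
  · simp [eFun, hu, hv]
  · have h : ∀ᶠ n in atTop, eFun D F N (u, v, n) = D.l := by
      filter_upwards [eventually_ge_atTop N] with n hn
      simp [eFun, hu, hv, not_lt.2 hn]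
    constructor
    · refine tendsto_const_nhds.congr' ?_
      filter_upwards [h] with n hn
      rw [hn, sub_mul, one_mul, D.l_idem, sub_self]
    · refine tendsto_const_nhds.congr' ?_
      filter_upwards [h] with n hn
      rw [hn, mul_sub, mul_one, D.l_idem, sub_self]

variable [DecidableEq X]

lemma eAmb_mem0 (F : Finset X) (N : ℕ) : eAmb D F N ∈ alg0 D X := ⟨F, inB_eFun D F N⟩

lemma eAmb_mem (F : Finset X) (N : ℕ) : eAmb D F N ∈ alg D X :=
  NonUnitalStarSubalgebra.le_topologicalClosure _ (eAmb_mem0 D F N)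

lemma approx0 {f : Amb M X} (hf : f ∈ alg0 D X) {ε : ℝ} (hε : 0 < ε) :
    ∃ (F : Finset X) (N : ℕ), ∀ F' N', F ⊆ F' → N ≤ N' → ‖eAmb D F' N' * f - f‖ ≤ ε := by
  obtain ⟨F, h1, h2, h3⟩ := hf
  choose! c hc using h2
  have e1 : ∀ᶠ n in atTop, ∀ u ∈ F, ∀ v ∈ F, ‖(1 - D.l) * f (u, v, n)‖ ≤ ε := by
    rw [Filter.eventually_all_finset]
    intro u hu
    rw [Filter.eventually_all_finset]
    intro v hv
    have := (h3 u hu v hv).1.norm
    rw [norm_zero] at this
    exact (this.eventually (gt_mem_nhds hε)).mono fun n hn => hn.le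
  have e2 : ∀ᶠ n in atTop, ∀ u ∈ F, ‖(1 - D.l) * (c u • D.p n)‖ ≤ ε := by
    rw [Filter.eventually_all_finset]
    intro u hu
    have := ((one_sub_l_mul_p D).const_smul (c u)).norm
    rw [smul_zero, norm_zero] at this
    simp only [mul_smul_comm]
    exact (this.eventually (gt_mem_nhds hε)).mono fun n hn => hn.le
  have e3 : ∀ᶠ n in atTop, ∀ u ∈ F, ‖(1 - D.l) * (c u • D.q n)‖ ≤ ε := by
    rw [Filter.eventually_all_finset]
    intro u hu
    have := ((one_sub_l_mul_q D).const_smul (c u)).norm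
    rw [smul_zero, norm_zero] at this
    simp only [mul_smul_comm]
    exact (this.eventually (gt_mem_nhds hε)).mono fun n hn => hn.le
  obtain ⟨N, hN⟩ := Filter.eventually_atTop.1 (e1.and (e2.and e3))
  refine ⟨F, N, fun F' N' hF hNN => ?_⟩
  refine lp.norm_le_of_forall_le hε.le ?_
  rintro ⟨u, v, n⟩
  change ‖eFun D F' N' (u, v, n) * f (u, v, n) - f (u, v, n)‖ ≤ ε
  by_cases hu' : u ∈ F'
  · by_cases hv' : v ∈ F'
    · by_cases hn : n < N'
      · have e : eFun D F' N' (u, v, n) = 1 := by simp [eFun, hu', hv', hn]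
        rw [e, one_mul, sub_self, norm_zero]
        exact hε.le
      · have e : eFun D F' N' (u, v, n) = D.l := by simp [eFun, hu', hv', hn]
        have hn' : N ≤ n := hNN.trans (not_lt.1 hn)
        obtain ⟨k1, k2, k3⟩ := hN n hn'
        have e' : ‖eFun D F' N' (u, v, n) * f (u, v, n) - f (u, v, n)‖ =
            ‖(1 - D.l) * f (u, v, n)‖ := by
          rw [e, ← norm_neg]
          congr 1
          rw [sub_mul, one_mul, neg_sub]
        rw [e']
        by_cases hu : u ∈ F
        · by_cases hv : v ∈ F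
          · exact k1 u hu v hv
          · rw [(hc u hu v n hv).1]
            exact k2 u hu
        · by_cases hv : v ∈ F
          · rw [(hc v hv u n hu).2]
            exact k3 v hv
          · rw [h1 u v n hu hv, mul_zero, norm_zero]
            exact hε.le
    · have e : eFun D F' N' (u, v, n) = D.p n := by simp [eFun, hu', hv']
      have hv : v ∉ F := fun h => hv' (hF h)
      by_cases hu : u ∈ F
      · rw [e, (hc u hu v n hv).1, mul_smul_comm, D.p_idem, sub_self, norm_zero]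
        exact hε.le
      · rw [h1 u v n hu hv, mul_zero, sub_self, norm_zero]
        exact hε.le
  · have hu : u ∉ F := fun h => hu' (hF h)
    by_cases hv' : v ∈ F'
    · have e : eFun D F' N' (u, v, n) = D.q n := by simp [eFun, hu', hv']
      by_cases hv : v ∈ F
      · rw [e, (hc v hv u n hu).2, mul_smul_comm, D.q_idem, sub_self, norm_zero]
        exact hε.le
      · rw [h1 u v n hu hv, mul_zero, sub_self, norm_zero]
        exact hε.le
    · have hv : v ∉ F := fun h => hv' (hF h)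
      rw [h1 u v n hu hv, mul_zero, sub_self, norm_zero]
      exact hε.le

lemma exists_near {f : Amb M X} (hf : f ∈ alg D X) {ε : ℝ} (hε : 0 < ε) :
    ∃ g ∈ alg0 D X, ‖f - g‖ < ε := by
  have h : f ∈ closure (alg0 D X : Set (Amb M X)) := hf
  obtain ⟨g, hg, hd⟩ := Metric.mem_closure_iff.1 h ε hε
  exact ⟨g, hg, by rwa [← dist_eq_norm]⟩

lemma approx {f : Amb M X} (hf : f ∈ alg D X) {ε : ℝ} (hε : 0 < ε) :
    ∃ (F : Finset X) (N : ℕ), ∀ F' N', F ⊆ F' → N ≤ N' → ‖eAmb D F' N' * f - f‖ ≤ ε := by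
  obtain ⟨g, hg, hfg⟩ := exists_near D hf (ε := ε / 3) (by positivity)
  obtain ⟨F, N, h⟩ := approx0 D hg (ε := ε / 3) (by positivity)
  refine ⟨F, N, fun F' N' hF hN => ?_⟩
  have h1 := h F' N' hF hN
  have e : eAmb D F' N' * f - f =
      eAmb D F' N' * (f - g) + (eAmb D F' N' * g - g) - (f - g) := by
    rw [mul_sub]; abel
  rw [e]
  have h2 : ‖eAmb D F' N' * (f - g)‖ ≤ ε / 3 := by
    refine (norm_mul_le _ _).trans ?_
    calc ‖eAmb D F' N'‖ * ‖f - g‖ ≤ 1 * ‖f - g‖ :=
          mul_le_mul_of_nonneg_right (eAmb_norm D F' N') (norm_nonneg _)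
      _ ≤ ε / 3 := by rw [one_mul]; exact hfg.le
  calc ‖eAmb D F' N' * (f - g) + (eAmb D F' N' * g - g) - (f - g)‖
      ≤ ‖eAmb D F' N' * (f - g) + (eAmb D F' N' * g - g)‖ + ‖f - g‖ := norm_sub_le _ _
    _ ≤ ‖eAmb D F' N' * (f - g)‖ + ‖eAmb D F' N' * g - g‖ + ‖f - g‖ := by
        gcongr; exact norm_add_le _ _
    _ ≤ ε / 3 + ε / 3 + ε / 3 := by
        gcongr
    _ = ε := by ring

lemma tail_zero {f : Amb M X} (hf : f ∈ alg D X) (u v : X) :
    Tendsto (fun n => (1 - D.l) * f (u, v, n)) atTop (𝓝 0) := by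
  rw [tendsto_zero_iff_norm_tendsto_zero, Metric.tendsto_atTop]
  intro ε hε
  set K : ℝ := ‖(1 : M) - D.l‖ + 1 with hK
  have hKpos : 0 < K := by positivity
  obtain ⟨g, ⟨F, hg⟩, hfg⟩ := exists_near D hf (ε := ε / (2 * K)) (by positivity)
  have hg' : InB D (F ∪ {u, v}) g := hg.mono Finset.subset_union_left
  have h1 := (hg'.2.2 u (by simp) v (by simp)).1
  rw [tendsto_zero_iff_norm_tendsto_zero, Metric.tendsto_atTop] at h1
  obtain ⟨N, hN⟩ := h1 (ε / 2) (by positivity)
  refine ⟨N, fun n hn => ?_⟩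
  have h2 := hN n hn
  rw [Real.dist_eq, sub_zero, abs_of_nonneg (norm_nonneg _)] at h2 ⊢
  have e : (1 - D.l) * f (u, v, n) =
      (1 - D.l) * ((f - g : Amb M X) (u, v, n)) + (1 - D.l) * g (u, v, n) := by
    rw [← mul_add]
    congr 1
    change f (u, v, n) = (f (u, v, n) - g (u, v, n)) + g (u, v, n)
    abel
  rw [e]
  have h3 : ‖(1 - D.l) * ((f - g : Amb M X) (u, v, n))‖ ≤ K * (ε / (2 * K)) := by
    refine (norm_mul_le _ _).trans ?_
    refine mul_le_mul (by rw [hK]; linarith) ?_ (norm_nonneg _) hKpos.le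
    exact (lp.norm_apply_le_norm ENNReal.top_ne_zero (f - g) _).trans hfg.le
  have h4 : K * (ε / (2 * K)) = ε / 2 := by field_simp
  calc _ ≤ ‖(1 - D.l) * ((f - g : Amb M X) (u, v, n))‖ + ‖(1 - D.l) * g (u, v, n)‖ :=
        norm_add_le _ _
    _ < ε / 2 + ε / 2 := by rw [h4] at h3; linarith
    _ = ε := by ring

end Pool.Agent.R295.IncrAU
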