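import Pool.Agent.R295.IncrAU

/-!
# No increasing approximate identity of projections
-/

set_option autoImplicit false
open Filter Topology
open scoped ENNReal Cardinal

namespace Pool.Agent.R295.IncrAU

variable {M : Type} [CStarAlgebra M] (D : Data M) {X : Type} [DecidableEq X]

/-- For `f` in the algebra and `x` in `X`, up to countably many `y` the function `f` is a multiple
of `p` on the block `(x, y)` and the same multiple of `q` on the block `(y, x)`. -/
lemma row {f : Amb M X} (hf : f ∈ alg D X) (x : X) :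
    ∃ (c : ℂ) (S : Set X), S.Countable ∧ ∀ y ∉ S, ∀ n,
      f (x, y, n) = c • D.p n ∧ f (y, x, n) = c • D.q n := by
  have h : ∀ k : ℕ, ∃ g ∈ alg0 D X, ‖f - g‖ < 1 / ((k : ℝ) + 1) := fun k =>
    exists_near D hf (by positivity)
  choose g hg hfg using h
  have h2 : ∀ k, ∃ (F : Finset X) (c : ℂ), ∀ v n, v ∉ F →
      g k (x, v, n) = c • D.p n ∧ g k (v, x, n) = c • D.q n := by
    intro k
    obtain ⟨F, hF⟩ := hg k
    have hF' : InB D (insert x F) (g k) := hF.mono (Finset.subset_insert _ _)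
    obtain ⟨c, hc⟩ := hF'.2.1 x (Finset.mem_insert_self _ _)
    exact ⟨insert x F, c, hc⟩
  choose F c hc using h2
  set S : Set X := ⋃ k, (F k : Set X) with hS
  have hSc : S.Countable := Set.countable_iUnion fun k => (F k).countable_toSet
  by_cases hne : ∃ y, y ∉ S
  · obtain ⟨y₀, hy₀⟩ := hne
    have hnot : ∀ y, y ∉ S → ∀ k, y ∉ F k := by
      intro y hy k hk
      exact hy (Set.mem_iUnion.2 ⟨k, hk⟩)
    have hlim : ∀ z, Tendsto (fun k => g k z) atTop (𝓝 (f z)) := by
      intro z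
      rw [tendsto_iff_norm_sub_tendsto_zero]
      refine squeeze_zero (fun k => norm_nonneg _) (fun k => ?_)
        tendsto_one_div_add_atTop_nhds_zero_nat
      calc ‖g k z - f z‖ = ‖(f - g k : Amb M X) z‖ := by
            rw [← norm_neg]; congr 1
            change -(g k z - f z) = f z - g k z
            abel
        _ ≤ ‖f - g k‖ := lp.norm_apply_le_norm ENNReal.top_ne_zero _ _
        _ ≤ _ := (hfg k).le
    have hcau : CauchySeq c := by
      have h1 : CauchySeq fun k => g k (x, y₀, 0) := (hlim _).cauchySeq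
      have h3 : ∀ k, g k (x, y₀, 0) = c k • D.p 0 := fun k => (hc k y₀ 0 (hnot y₀ hy₀ k)).1
      simp only [h3] at h1
      rw [Metric.cauchySeq_iff] at h1 ⊢
      intro ε hε
      obtain ⟨N, hN⟩ := h1 ε hε
      refine ⟨N, fun m hm n hn => ?_⟩
      have := hN m hm n hn
      rwa [dist_eq_norm, ← sub_smul, norm_smul,
        norm_eq_one_of_proj (D.p_idem 0) (D.p_star 0) (D.p_ne 0), mul_one, ← dist_eq_norm] at this
    obtain ⟨c₀, hc₀⟩ := cauchySeq_tendsto_of_complete hcau
    refine ⟨c₀, S, hSc, fun y hy n => ⟨?_, ?_⟩⟩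
    · have h1 := hlim (x, y, n)
      have h3 : ∀ k, g k (x, y, n) = c k • D.p n := fun k => (hc k y n (hnot y hy k)).1
      simp only [h3] at h1
      exact tendsto_nhds_unique h1 (hc₀.smul_const _)
    · have h1 := hlim (y, x, n)
      have h3 : ∀ k, g k (y, x, n) = c k • D.q n := fun k => (hc k y n (hnot y hy k)).2
      simp only [h3] at h1
      exact tendsto_nhds_unique h1 (hc₀.smul_const _)
  · push Not at hne
    exact ⟨0, S, hSc, fun y hy => absurd (hne y) hy⟩

/-- A projection which nearly dominates `a_x` is `p` on the block `(x, y)` and `q` on the block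
`(y, x)`, up to countably many `y`. -/
lemma proj_row {e : Amb M X} (he : e ∈ alg D X) (h1 : e * e = e) (x : X)
    (h2 : ‖e * eAmb D {x} 0 - eAmb D {x} 0‖ < 1 / 2) :
    ∃ S : Set X, S.Countable ∧ ∀ y ∉ S, ∀ n, e (x, y, n) = D.p n ∧ e (y, x, n) = D.q n := by
  obtain ⟨c, S, hS, hc⟩ := row D he x
  refine ⟨insert x S, hS.insert x, fun y hy => ?_⟩
  have hyS : y ∉ S := fun h => hy (Set.mem_insert_of_mem _ h)
  have hyx : y ≠ x := fun h => hy (h ▸ Set.mem_insert _ _)
  suffices c = 1 by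
    intro n
    have := hc y hyS n
    rwa [‹c = 1›, one_smul, one_smul] at this
  have k1 : e (x, y, 0) * e (x, y, 0) = e (x, y, 0) := by
    have := congrArg (fun f : Amb M X => f (x, y, 0)) h1
    exact this
  have hp1 := norm_eq_one_of_proj (D.p_idem 0) (D.p_star 0) (D.p_ne 0)
  rw [(hc y hyS 0).1, smul_mul_smul_comm, D.p_idem] at k1
  have k2 : c * c = c := by
    have : (c * c - c) • D.p 0 = 0 := by rw [sub_smul, k1, sub_self]
    rcases smul_eq_zero.1 this with h | h
    · exact sub_eq_zero.1 h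
    · exact absurd h (D.p_ne 0)
  have k3 : ‖(c - 1) • D.p 0‖ < 1 / 2 := by
    have h3 := (lp.norm_apply_le_norm ENNReal.top_ne_zero
      (e * eAmb D {x} 0 - eAmb D {x} 0) (x, y, 0)).trans_lt h2
    have h4 : (e * eAmb D {x} 0 - eAmb D {x} 0 : Amb M X) (x, y, 0) = (c - 1) • D.p 0 := by
      change e (x, y, 0) * eFun D {x} 0 (x, y, 0) - eFun D {x} 0 (x, y, 0) = _
      have h5 : eFun D {x} 0 (x, y, 0) = D.p 0 := by
        simp [eFun, hyx]
      rw [h5, (hc y hyS 0).1, smul_mul_assoc, D.p_idem, sub_smul, one_smul]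
    rwa [h4] at h3
  rw [norm_smul, hp1, mul_one] at k3
  have k4 : c * (c - 1) = 0 := by rw [mul_sub, k2, mul_one, sub_self]
  rcases mul_eq_zero.1 k4 with h | h
  · rw [h] at k3
    norm_num at k3
  · exact sub_eq_zero.1 h

omit [DecidableEq X] in
/-- the free pair -/
lemma free_pair (hX : ℵ_ 2 ≤ #X) (S : X → Set X) (hS : ∀ x, (S x).Countable) :
    ∃ x y, y ∉ S x ∧ x ∉ S y := by
  have h1 : ℵ_ 1 ≤ #X := (Cardinal.aleph_le_aleph.2 (by norm_num)).trans hX
  obtain ⟨Z, hZ⟩ := Cardinal.le_mk_iff_exists_set.1 h1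
  have hT : #(⋃ z : Z, S z : Set X) ≤ ℵ_ 1 := by
    refine (Cardinal.mk_iUnion_le _).trans ?_
    rw [hZ]
    refine (mul_le_mul' le_rfl (ciSup_le' fun z : Z => (hS (z : X)).le_aleph0)).trans ?_
    rw [Cardinal.aleph_mul_aleph0]
  have hlt : #(⋃ z : Z, S z : Set X) < #X :=
    hT.trans_lt ((Cardinal.aleph_lt_aleph.2 (by norm_num)).trans_le hX)
  obtain ⟨y, hy⟩ : ∃ y, y ∉ (⋃ z : Z, S z : Set X) := by
    by_contra hcon
    push Not at hcon
    rw [Set.eq_univ_of_forall hcon, Cardinal.mk_univ] at hlt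
    exact lt_irrefl _ hlt
  obtain ⟨x, hxZ, hx⟩ : ∃ x ∈ Z, x ∉ S y := by
    by_contra hcon
    push Not at hcon
    have h2 : #Z ≤ ℵ₀ := (Cardinal.mk_le_mk_of_subset hcon).trans (hS y).le_aleph0
    rw [hZ] at h2
    exact absurd h2 (not_le.2 (Cardinal.aleph0_lt_aleph_one))
  exact ⟨x, y, fun h => hy (Set.mem_iUnion.2 ⟨⟨x, hxZ⟩, h⟩), hx⟩

/-- There is no increasing approximate identity of projections. -/
lemma no_incr (hX : ℵ_ 2 ≤ #X) {Λ : Type} [Preorder Λ] [IsDirected Λ (· ≤ ·)]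
    [Nonempty Λ] (e : Λ → Amb M X) (he : ∀ i, e i ∈ alg D X) (h1 : ∀ i, e i * e i = e i)
    (h3 : ∀ i j, i ≤ j → e i * e j = e i)
    (h4 : ∀ a ∈ alg D X, Tendsto (fun i => e i * a) atTop (𝓝 a)) : False := by
  have h5 : ∀ x : X, ∃ i, ‖e i * eAmb D {x} 0 - eAmb D {x} 0‖ < 1 / 2 := by
    intro x
    have := h4 _ (eAmb_mem D {x} 0)
    rw [tendsto_iff_norm_sub_tendsto_zero] at this
    exact (this.eventually (gt_mem_nhds (by norm_num : (0 : ℝ) < 1 / 2))).exists
  choose i hi using h5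
  choose S hS hrow using fun x => proj_row D (he (i x)) (h1 (i x)) x (hi x)
  obtain ⟨x, y, hy, hx⟩ := free_pair hX S hS
  obtain ⟨k, hk1, hk2⟩ := exists_ge_ge (i x) (i y)
  have h6 : ∀ n, e k (x, y, n) = 1 := by
    intro n
    have a1 : D.p n * e k (x, y, n) = D.p n := by
      have := congrArg (fun f : Amb M X => f (x, y, n)) (h3 _ _ hk1)
      have h7 : e (i x) (x, y, n) * e k (x, y, n) = e (i x) (x, y, n) := this
      rwa [(hrow x y hy n).1] at h7
    have a2 : D.q n * e k (x, y, n) = D.q n := by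
      have := congrArg (fun f : Amb M X => f (x, y, n)) (h3 _ _ hk2)
      have h7 : e (i y) (x, y, n) * e k (x, y, n) = e (i y) (x, y, n) := this
      rwa [(hrow y x hx n).2] at h7
    obtain ⟨a, b, hab⟩ := D.join n
    have hab' : star a * D.p n + star b * D.q n = 1 := by
      have := congrArg star hab
      rwa [star_add, star_mul, star_mul, D.p_star, D.q_star, star_one] at this
    calc e k (x, y, n) = (star a * D.p n + star b * D.q n) * e k (x, y, n) := by
          rw [hab', one_mul]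
      _ = star a * D.p n + star b * D.q n := by
          rw [add_mul, mul_assoc, mul_assoc, a1, a2]
      _ = 1 := hab'
  have h7 := tail_zero D (he k) x y
  simp only [h6, mul_one] at h7
  have h8 := tendsto_nhds_unique h7 tendsto_const_nhds
  exact D.l_ne (sub_eq_zero.1 h8.symm).symm

/-! ### the data in `M_2` -/

open scoped Matrix.Norms.L2Operator Matrix

/-- the parameter -/
noncomputable def tt (n : ℕ) : ℝ := 1 / ((n : ℝ) + 1)

lemma tt_pos (n : ℕ) : 0 < tt n := by unfold tt; positivity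

lemma tt_lim : Tendsto tt atTop (𝓝 0) := tendsto_one_div_add_atTop_nhds_zero_nat

/-- the projection onto the line spanned by `(1, t)` -/
noncomputable def pr (t : ℝ) : Matrix (Fin 2) (Fin 2) ℂ :=
  (((1 + t ^ 2)⁻¹ : ℝ) : ℂ) • !![1, 0; 0, 0] + ((t * (1 + t ^ 2)⁻¹ : ℝ) : ℂ) • !![0, 1; 1, 0] +
    ((t ^ 2 * (1 + t ^ 2)⁻¹ : ℝ) : ℂ) • !![0, 0; 0, 1]

lemma pr_eq (t : ℝ) : pr t = (((1 + t ^ 2)⁻¹ : ℝ) : ℂ) • !![1, (t : ℂ); (t : ℂ), (t : ℂ) ^ 2] := by
  ext i j
  fin_cases i <;> fin_cases j <;> simp [pr] <;> ring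

lemma one_add_sq_ne (t : ℝ) : (1 + (t : ℂ) ^ 2) ≠ 0 := by
  have h : (0 : ℝ) < 1 + t ^ 2 := by positivity
  have h2 : ((1 + t ^ 2 : ℝ) : ℂ) ≠ 0 := Complex.ofReal_ne_zero.2 h.ne'
  simpa using h2

lemma pr_idem (t : ℝ) : pr t * pr t = pr t := by
  have h := one_add_sq_ne t
  rw [pr_eq]
  ext i j
  fin_cases i <;> fin_cases j <;>
    simp [Matrix.mul_apply, Fin.sum_univ_two] <;> field_simp

lemma pr_star (t : ℝ) : star (pr t) = pr t := by
  rw [pr_eq]
  ext i j
  fin_cases i <;> fin_cases j <;> simp [Matrix.star_apply]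

lemma pr_cont : Continuous pr := by
  unfold pr
  have h1 : Continuous fun t : ℝ => (1 + t ^ 2)⁻¹ :=
    Continuous.inv₀ (by fun_prop) (fun t => by positivity)
  refine Continuous.add (Continuous.add ?_ ?_) ?_
  · exact (Complex.continuous_ofReal.comp h1).smul continuous_const
  · exact (Complex.continuous_ofReal.comp (continuous_id.mul h1)).smul continuous_const
  · exact (Complex.continuous_ofReal.comp ((continuous_id.pow 2).mul h1)).smul continuous_const

lemma pr_apply (t : ℝ) : pr t 0 0 = (((1 + t ^ 2)⁻¹ : ℝ) : ℂ) := by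
  rw [pr_eq]; simp

lemma pr_ne (t : ℝ) : pr t ≠ 0 := by
  intro h
  have h1 := pr_apply t
  rw [h] at h1
  simp only [Matrix.zero_apply] at h1
  have h2 : (0 : ℝ) < (1 + t ^ 2)⁻¹ := by positivity
  exact h2.ne (Complex.ofReal_injective (by simpa using h1))

/-- the data -/
noncomputable def data : Data (Matrix (Fin 2) (Fin 2) ℂ) where
  p n := pr (tt n)
  q n := pr (-tt n)
  l := pr 0
  p_idem n := pr_idem _
  q_idem n := pr_idem _
  l_idem := pr_idem _
  p_star n := pr_star _
  q_star n := pr_star _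
  l_star := pr_star _
  p_lim := (pr_cont.tendsto 0).comp tt_lim
  q_lim := by
    have h : Tendsto (fun n => -tt n) atTop (𝓝 0) := by
      have := tt_lim.neg
      rwa [neg_zero] at this
    exact (pr_cont.tendsto 0).comp h
  join n := by
    have h := one_add_sq_ne (tt n)
    have ht : (tt n : ℂ) ≠ 0 := Complex.ofReal_ne_zero.2 (tt_pos n).ne'
    refine ⟨((1 + (tt n : ℂ) ^ 2) / 2) • !![1, 0; 0, ((tt n : ℂ) ^ 2)⁻¹],
      ((1 + (tt n : ℂ) ^ 2) / 2) • !![1, 0; 0, ((tt n : ℂ) ^ 2)⁻¹], ?_⟩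
    rw [pr_eq, pr_eq]
    ext i j
    fin_cases i <;> fin_cases j <;>
      simp [Matrix.mul_apply, Fin.sum_univ_two] <;> field_simp <;> ring
  p_ne n := pr_ne _
  q_ne n := pr_ne _
  l_ne h := by
    have h1 := congrFun (congrFun h 1) 1
    rw [pr_eq] at h1
    simp at h1

/-- The algebra of the counterexample has an approximate identity of projections. -/
lemma has_approx {a : Amb M X} (ha : a ∈ alg D X) :
    Tendsto (fun i : Finset X × ℕ => eAmb D i.1 i.2 * a) atTop (𝓝 a) ∧
      Tendsto (fun i : Finset X × ℕ => a * eAmb D i.1 i.2) atTop (𝓝 a) := by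
  have key : ∀ a ∈ alg D X,
      Tendsto (fun i : Finset X × ℕ => eAmb D i.1 i.2 * a) atTop (𝓝 a) := by
    intro a ha
    rw [tendsto_iff_norm_sub_tendsto_zero, Metric.tendsto_atTop]
    intro ε hε
    obtain ⟨F, N, h⟩ := approx D ha (ε := ε / 2) (by positivity)
    refine ⟨(F, N), fun i hi => ?_⟩
    rw [Real.dist_eq, sub_zero, abs_of_nonneg (norm_nonneg _)]
    exact (h i.1 i.2 hi.1 hi.2).trans_lt (by linarith)
  refine ⟨key a ha, ?_⟩
  have h2 := (key (star a) ((alg D X).star_mem' ha)).star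
  rw [star_star] at h2
  refine h2.congr fun i => ?_
  rw [star_mul, star_star]
  congr 1
  ext1
  funext y
  exact eFun_star D i.1 i.2 y

end Pool.Agent.R295.IncrAU
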